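import Pool.Agent.K1H35.SH.Stm2

set_option autoImplicit false

namespace Pool.Agent.K1H99.SQ

open Finset Pool.Agent.K1H35.SH

theorem cnt_union {n d : ℕ} {ι : Type*} (s : Finset ι) (P : SimpleGraph (Fin n) → Prop)
    (Q : ι → SimpleGraph (Fin n) → Prop) (h : ∀ G, P G → ∃ i ∈ s, Q i G) :
    cnt n d P ≤ ∑ i ∈ s, cnt n d (Q i) := by
  classical
  unfold cnt
  refine (card_le_card ?_).trans card_biUnion_le
  intro G hG
  rw [mem_filter] at hG
  obtain ⟨i, hi, hQ⟩ := h G hG.2
  rw [mem_biUnion]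
  exact ⟨i, hi, mem_filter.2 ⟨hG.1, hQ⟩⟩

theorem cnt_le {n d : ℕ} (P : SimpleGraph (Fin n) → Prop) : cnt n d P ≤ (reg n d).card := by
  classical
  unfold cnt
  exact card_filter_le _ _

theorem E2_even {n : ℕ} (G : SimpleGraph (Fin n)) (U : Finset (Fin n)) : ∃ e, E2 G U = 2 * e := by
  classical
  have h : ((E2 G U : ℕ) : ZMod 2) = 0 := by
    unfold E2
    rw [card_eq_sum_ones]
    push_cast
    refine sum_involution (fun p _ => (p.2, p.1)) ?_ ?_ ?_ ?_
    · intro p _
      decide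
    · rintro ⟨x, y⟩ hp _ h
      rw [mem_filter] at hp
      simp only [Prod.mk.injEq] at h
      rw [h.1] at hp
      exact hp.2.2.2.ne rfl
    · rintro ⟨x, y⟩ hp
      rw [mem_filter] at hp ⊢
      exact ⟨mem_univ _, hp.2.2.1, hp.2.1, hp.2.2.2.symm⟩
    · rintro ⟨x, y⟩ _
      rfl
  rw [ZMod.natCast_eq_zero_iff] at h
  exact h

theorem E2_le {n : ℕ} (G : SimpleGraph (Fin n)) (U : Finset (Fin n)) : E2 G U ≤ n * n := by
  classical
  unfold E2
  refine (card_filter_le _ _).trans ?_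
  rw [card_univ, Fintype.card_prod, Fintype.card_fin]

/-- a family of `2 ^ (2 L + 1)` unlikely events -/
theorem sum_le {N L n K : ℕ} (hn : n ≤ 2 ^ L) (a : ℕ → ℕ) (s : Finset ℕ)
    (hs : s ⊆ range (n * n + 1)) (h : ∀ e ∈ s, 2 ^ (K + 2 * L + 1) * a e ≤ N) :
    (∑ e ∈ s, a e) * 2 ^ K ≤ N := by
  have h1 : s.card ≤ 2 ^ (2 * L + 1) := by
    have := card_le_card hs
    rw [card_range] at this
    have h2 : n * n ≤ 2 ^ L * 2 ^ L := Nat.mul_le_mul hn hn
    have h3 : 2 ^ (2 * L + 1) = 2 ^ L * 2 ^ L * 2 := by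
      rw [pow_succ, two_mul, pow_add]
    have h4 : 1 ≤ 2 ^ L * 2 ^ L := Nat.one_le_iff_ne_zero.2 (by positivity)
    omega
  have h2 : (∑ e ∈ s, a e) * 2 ^ (K + 2 * L + 1) ≤ s.card * N := by
    rw [sum_mul, ← smul_eq_mul (s.card)]
    refine (sum_le_card_nsmul s _ N fun e he => ?_)
    rw [mul_comm]
    exact h e he
  have h3 : (∑ e ∈ s, a e) * 2 ^ K * 2 ^ (2 * L + 1) ≤ N * 2 ^ (2 * L + 1) := by
    calc (∑ e ∈ s, a e) * 2 ^ K * 2 ^ (2 * L + 1) = (∑ e ∈ s, a e) * 2 ^ (K + 2 * L + 1) := by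
          rw [mul_assoc, ← pow_add, add_assoc]
      _ ≤ s.card * N := h2
      _ ≤ 2 ^ (2 * L + 1) * N := Nat.mul_le_mul_right _ h1
      _ = _ := mul_comm _ _
  exact Nat.le_of_mul_le_mul_right h3 (by positivity)

section

variable {n d L u : ℕ} (hn : n ≤ 2 ^ L) (hL : 1 ≤ L) (hd : 64 * d ≤ n) (hd64 : 64 ≤ d)
  (hdd : 100 * L * n ≤ d ^ 2) (U : Finset (Fin n)) (hU : d ≤ U.card) (hU8 : 8 * U.card ≤ n)

include hn hL hd hd64 hdd hU hU8

theorem low (hLOD : S_LOD) :
    cnt n d (fun G => 10 * n * E2 G U < d * U.card ^ 2) * 2 ^ (5 * L * U.card + 1) ≤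
      (reg n d).card := by
  classical
  set u := U.card with hu
  have hn0 : 0 < n := by omega
  have h1 : cnt n d (fun G => 10 * n * E2 G U < d * u ^ 2) ≤
      ∑ e ∈ (range (n * n + 1)).filter (fun e => 20 * n * e < d * u ^ 2),
        cnt n d (fun G => E2 G U = 2 * e) := by
    refine cnt_union _ _ _ fun G hG => ?_
    obtain ⟨e, he⟩ := E2_even G U
    refine ⟨e, ?_, he⟩
    rw [mem_filter, mem_range]
    have := E2_le G U
    rw [he] at hG
    refine ⟨by omega, lt_of_eq_of_lt (by ring) hG⟩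
  refine (Nat.mul_le_mul_right _ h1).trans ?_
  refine sum_le hn _ _ (filter_subset _ _) fun e he => ?_
  rw [mem_filter] at he
  have hchain : ∀ k, 9 * (e + k) * n ≤ d * u ^ 2 → 2 ^ k * cnt n d (fun G => E2 G U = 2 * e) ≤
      cnt n d (fun G => E2 G U = 2 * (e + k)) := by
    intro k
    induction k with
    | zero => intro _; simp
    | succ k ih =>
      intro hk
      have h2 : 9 * (e + k) * n ≤ d * u ^ 2 :=
        (Nat.mul_le_mul_right _ (Nat.mul_le_mul_left _ (by omega))).trans hk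
      have h3 := ih h2
      have h4 := hLOD n d (e + k) U hd hd64 (by omega) hU8 (by
        rw [← hu]
        exact hk)
      calc 2 ^ (k + 1) * cnt n d (fun G => E2 G U = 2 * e)
          = 2 * (2 ^ k * cnt n d (fun G => E2 G U = 2 * e)) := by ring
        _ ≤ 2 * cnt n d (fun G => E2 G U = 2 * (e + k)) := Nat.mul_le_mul_left _ h3
        _ ≤ _ := h4
  refine (hchain _ ?_).trans (cnt_le _)
  -- arithmetic
  have e1 : d * u ^ 2 ≥ 100 * L * n * u := by
    have : d * u ^ 2 ≥ d ^ 2 * u := by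
      have := Nat.mul_le_mul_left (d * u) hU
      nlinarith
    exact (Nat.mul_le_mul_right u hdd).trans this
  have hu64 : 64 ≤ u := hd64.trans hU
  have e2 : L * n * 64 ≤ L * n * u := Nat.mul_le_mul_left _ hu64
  have e3 : n ≤ L * n := Nat.le_mul_of_pos_left _ hL
  have e4 := he.2
  have e5 : 9 * (e + (5 * L * u + 1 + 2 * L + 1)) * n =
      9 * (n * e) + 45 * (L * n * u) + 18 * (L * n) + 18 * n := by ring
  rw [e5]
  have e6 : 20 * n * e = 20 * (n * e) := by ring
  have e7 : 100 * L * n * u = 100 * (L * n * u) := by ring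
  rw [e6] at e4
  rw [e7] at e1
  generalize n * e = A at *
  generalize L * n * u = B at *
  generalize L * n = C at *
  generalize d * u ^ 2 = X at *
  omega

theorem upp (hEUP : S_EUP) :
    cnt n d (fun G => U.card * (U.card - 1) < 2 * E2 G U) * 2 ^ (5 * L * U.card + 1) ≤
      (reg n d).card := by
  classical
  set u := U.card with hu
  have hn0 : 0 < n := by omega
  have h1 : cnt n d (fun G => u * (u - 1) < 2 * E2 G U) ≤
      ∑ e ∈ (range (n * n + 1)).filter (fun e => u * (u - 1) < 4 * e),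
        cnt n d (fun G => E2 G U = 2 * e) := by
    refine cnt_union _ _ _ fun G hG => ?_
    obtain ⟨e, he⟩ := E2_even G U
    refine ⟨e, ?_, he⟩
    rw [mem_filter, mem_range]
    have := E2_le G U
    rw [he] at hG
    refine ⟨by omega, by omega⟩
  refine (Nat.mul_le_mul_right _ h1).trans ?_
  refine sum_le hn _ _ (filter_subset _ _) fun e he => ?_
  rw [mem_filter] at he
  have hchain : ∀ k e1, 2 * d * u ^ 2 ≤ (e1 + 1) * n →
      2 ^ k * cnt n d (fun G => E2 G U = 2 * (e1 + k)) ≤ cnt n d (fun G => E2 G U = 2 * e1) := by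
    intro k
    induction k with
    | zero => intro _ _; simp
    | succ k ih =>
      intro e1 hk
      have h3 := ih (e1 + 1) (hk.trans (Nat.mul_le_mul_right _ (by omega)))
      have h4 := hEUP n d e1 U hd hd64 hU8 hk
      have h5 : e1 + (k + 1) = e1 + 1 + k := by ring
      rw [h5]
      calc 2 ^ (k + 1) * cnt n d (fun G => E2 G U = 2 * (e1 + 1 + k))
          = 2 * (2 ^ k * cnt n d (fun G => E2 G U = 2 * (e1 + 1 + k))) := by ring
        _ ≤ 2 * cnt n d (fun G => E2 G U = 2 * (e1 + 1)) := Nat.mul_le_mul_left _ h3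
        _ ≤ _ := h4
  -- arithmetic
  have hd6 : 6400 * L ≤ d := by
    have h2 : 100 * L * (64 * d) ≤ d * d := by
      have := Nat.mul_le_mul_left (100 * L) hd
      rw [← pow_two]
      exact this.trans hdd
    have h3 : 6400 * L * d ≤ d * d := by
      calc 6400 * L * d = 100 * L * (64 * d) := by ring
        _ ≤ _ := h2
    exact Nat.le_of_mul_le_mul_right h3 (by omega)
  have hu6 : 6400 * L ≤ u := hd6.trans hU
  set k := 5 * L * u + 1 + 2 * L + 1 with hk
  have hku : 32 * k ≤ u * u := by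
    have h2 : 6400 * L * u ≤ u * u := Nat.mul_le_mul_right _ hu6
    have h3 : L * 1 ≤ L * u := Nat.mul_le_mul_left _ (by omega)
    have h4 : 1 ≤ L * u := by nlinarith
    have h5 : 5 * L * u = 5 * (L * u) := by ring
    have h6 : 6400 * L * u = 6400 * (L * u) := by ring
    rw [hk, h5]
    rw [h6] at h2
    generalize L * u = A at *
    generalize u * u = B at *
    omega
  have hke : k ≤ e := by
    have h2 := he.2
    have h3 : u * (u - 1) = u * u - u := by rw [Nat.mul_sub, mul_one]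
    have h4 : 2 * u ≤ u * u := Nat.mul_le_mul_right u (by omega)
    rw [h3] at h2
    generalize u * u = B at *
    omega
  have hcond : 2 * d * u ^ 2 ≤ (e - k + 1) * n := by
    have h2 := he.2
    have h3 : u * (u - 1) = u * u - u := by rw [Nat.mul_sub, mul_one]
    have h4 : 100 * u ≤ u * u := Nat.mul_le_mul_right u (by omega)
    rw [h3] at h2
    have h5 : u * u ≤ 32 * (e - k + 1) := by
      generalize u * u = B at *
      omega
    have h6 : 32 * (2 * d * u ^ 2) ≤ 32 * ((e - k + 1) * n) := by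
      calc 32 * (2 * d * u ^ 2) = (64 * d) * (u * u) := by ring
        _ ≤ n * (32 * (e - k + 1)) := Nat.mul_le_mul hd h5
        _ = _ := by ring
    exact Nat.le_of_mul_le_mul_left h6 (by norm_num)
  have h7 := hchain k (e - k) hcond
  rw [Nat.sub_add_cancel hke] at h7
  exact h7.trans (cnt_le _)

theorem one (hEUP : S_EUP) (hLOD : S_LOD) :
    cnt n d (fun G => ¬ (d * U.card ^ 2 ≤ 10 * n * E2 G U ∧
      2 * E2 G U ≤ U.card * (U.card - 1))) * 2 ^ (5 * L * U.card) ≤ (reg n d).card := by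
  have h1 := low hn hL hd hd64 hdd U hU hU8 hLOD
  have h2 := upp hn hL hd hd64 hdd U hU hU8 hEUP
  have h3 : cnt n d (fun G => ¬ (d * U.card ^ 2 ≤ 10 * n * E2 G U ∧
      2 * E2 G U ≤ U.card * (U.card - 1))) ≤
      cnt n d (fun G => 10 * n * E2 G U < d * U.card ^ 2) +
        cnt n d (fun G => U.card * (U.card - 1) < 2 * E2 G U) := by
    have := cnt_union (n := n) (d := d) (univ : Finset Bool)
      (fun G => ¬ (d * U.card ^ 2 ≤ 10 * n * E2 G U ∧ 2 * E2 G U ≤ U.card * (U.card - 1)))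
      (fun b G => if b then 10 * n * E2 G U < d * U.card ^ 2 else
        U.card * (U.card - 1) < 2 * E2 G U) (by
        intro G hG
        rw [not_and_or, not_le, not_le] at hG
        rcases hG with h | h
        · exact ⟨true, mem_univ _, by simpa using h⟩
        · exact ⟨false, mem_univ _, by simpa using h⟩)
    simpa using this
  have hp : 2 ^ (5 * L * U.card + 1) = 2 ^ (5 * L * U.card) * 2 := pow_succ _ _
  rw [hp, ← mul_assoc] at h1 h2
  have h4 := Nat.mul_le_mul_right (2 ^ (5 * L * U.card)) h3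
  rw [add_mul] at h4
  omega

end

/-- **Piece QLB.** -/
theorem t_QLB (hE : S_EUP) (hLo : S_LOD) : S_QLB := by
  classical
  intro n d L hn hL hd hd64 hdd
  set N := (reg n d).card with hN
  -- sizes
  have h1 : cnt n d (fun G => ¬ QL d G) ≤ ∑ u ∈ range (n + 1), cnt n d (fun G =>
      ∃ U : Finset (Fin n), U.card = u ∧ d ≤ u ∧ 8 * u ≤ n ∧ ¬ (d * U.card ^ 2 ≤ 10 * n * E2 G U ∧
        2 * E2 G U ≤ U.card * (U.card - 1))) := by
    refine cnt_union _ _ _ fun G hG => ?_
    unfold QL at hG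
    push Not at hG
    obtain ⟨U, a1, a2, a3⟩ := hG
    refine ⟨U.card, by rw [mem_range]; omega, U, rfl, a1, a2, ?_⟩
    intro h
    have := a3 h.1
    omega
  have h2 : ∀ u ∈ range (n + 1), cnt n d (fun G =>
      ∃ U : Finset (Fin n), U.card = u ∧ d ≤ u ∧ 8 * u ≤ n ∧ ¬ (d * U.card ^ 2 ≤ 10 * n * E2 G U ∧
        2 * E2 G U ≤ U.card * (U.card - 1))) * 2 ^ (4 * L) ≤ N := by
    intro u _
    by_cases hu : d ≤ u ∧ 8 * u ≤ n
    · have h3 : cnt n d (fun G =>
          ∃ U : Finset (Fin n), U.card = u ∧ d ≤ u ∧ 8 * u ≤ n ∧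
            ¬ (d * U.card ^ 2 ≤ 10 * n * E2 G U ∧ 2 * E2 G U ≤ U.card * (U.card - 1))) ≤
          ∑ U ∈ powersetCard u (univ : Finset (Fin n)), cnt n d (fun G =>
            ¬ (d * U.card ^ 2 ≤ 10 * n * E2 G U ∧ 2 * E2 G U ≤ U.card * (U.card - 1))) := by
        refine cnt_union _ _ _ fun G hG => ?_
        obtain ⟨U, a1, -, -, a4⟩ := hG
        exact ⟨U, mem_powersetCard.2 ⟨subset_univ _, a1⟩, a4⟩
      have h4 : (∑ U ∈ powersetCard u (univ : Finset (Fin n)), cnt n d (fun G =>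
            ¬ (d * U.card ^ 2 ≤ 10 * n * E2 G U ∧ 2 * E2 G U ≤ U.card * (U.card - 1)))) *
          2 ^ (5 * L * u) ≤ 2 ^ (L * u) * N := by
        rw [sum_mul]
        refine (sum_le_card_nsmul _ _ N fun U hU => ?_).trans ?_
        · rw [mem_powersetCard] at hU
          have := one hn hL hd hd64 hdd U (by rw [hU.2]; exact hu.1) (by rw [hU.2]; exact hu.2) hE hLo
          rw [hU.2] at this ⊢
          exact this
        · rw [smul_eq_mul]
          refine Nat.mul_le_mul_right _ ?_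
          rw [card_powersetCard, card_univ, Fintype.card_fin]
          refine (Nat.choose_le_pow n u).trans ?_
          rw [pow_mul]
          exact Nat.pow_le_pow_left hn u
      have h5 : (∑ U ∈ powersetCard u (univ : Finset (Fin n)), cnt n d (fun G =>
            ¬ (d * U.card ^ 2 ≤ 10 * n * E2 G U ∧ 2 * E2 G U ≤ U.card * (U.card - 1)))) *
          2 ^ (4 * L * u) ≤ N := by
        have : 2 ^ (5 * L * u) = 2 ^ (4 * L * u) * 2 ^ (L * u) := by
          rw [← pow_add]
          congr 1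
          ring
        rw [this, ← mul_assoc, mul_comm (2 ^ (L * u)) N] at h4
        exact Nat.le_of_mul_le_mul_right h4 (by positivity)
      refine le_trans (Nat.mul_le_mul h3 (Nat.pow_le_pow_right (by norm_num) ?_)) h5
      exact Nat.le_mul_of_pos_right _ (by omega)
    · have : cnt n d (fun G =>
          ∃ U : Finset (Fin n), U.card = u ∧ d ≤ u ∧ 8 * u ≤ n ∧
            ¬ (d * U.card ^ 2 ≤ 10 * n * E2 G U ∧ 2 * E2 G U ≤ U.card * (U.card - 1))) = 0 := by
        have h0 := cnt_union (n := n) (d := d) (∅ : Finset Unit) (fun G =>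
          ∃ U : Finset (Fin n), U.card = u ∧ d ≤ u ∧ 8 * u ≤ n ∧
            ¬ (d * U.card ^ 2 ≤ 10 * n * E2 G U ∧ 2 * E2 G U ≤ U.card * (U.card - 1)))
          (fun _ _ => False) (by
            rintro G ⟨U, -, a2, a3, -⟩
            exact absurd ⟨a2, a3⟩ hu)
        rw [sum_empty] at h0
        exact Nat.le_zero.1 h0
      rw [this, zero_mul]
      exact Nat.zero_le _
  have h6 : cnt n d (fun G => ¬ QL d G) * 2 ^ (4 * L) ≤ 2 ^ (2 * L) * N := by
    refine (Nat.mul_le_mul_right _ h1).trans ?_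
    rw [sum_mul]
    refine (sum_le_card_nsmul _ _ N h2).trans ?_
    rw [smul_eq_mul, card_range]
    refine Nat.mul_le_mul_right _ ?_
    have h7 : 2 ^ (2 * L) = 2 ^ L * 2 ^ L := by rw [two_mul, pow_add]
    have h8 : 2 ≤ 2 ^ L := by
      calc 2 = 2 ^ 1 := rfl
        _ ≤ 2 ^ L := Nat.pow_le_pow_right (by norm_num) hL
    rw [h7]
    nlinarith
  have h7 : cnt n d (fun G => ¬ QL d G) * 2 ^ (2 * L) ≤ N := by
    have : 2 ^ (4 * L) = 2 ^ (2 * L) * 2 ^ (2 * L) := by
      rw [← pow_add]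
      congr 1
      ring
    rw [this, ← mul_assoc, mul_comm (2 ^ (2 * L)) N] at h6
    exact Nat.le_of_mul_le_mul_right h6 (by positivity)
  refine le_trans (Nat.mul_le_mul_left _ ?_) h7
  calc n ^ 2 ≤ (2 ^ L) ^ 2 := Nat.pow_le_pow_left hn 2
    _ = 2 ^ (2 * L) := by rw [← pow_mul, mul_comm]

end Pool.Agent.K1H99.SQ
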